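import Mathlib

set_option autoImplicit false

open Finset Polynomial

namespace Pool.Agent.H331R2.ChromLC

noncomputable section

open Classical

variable {V : Type*} [Fintype V] (G : SimpleGraph V)

/-- Proper colourings of `G[A]` with colours `1..k`, encoded as functions `V → ℕ`
that vanish exactly outside `A`. -/
def C (A : Finset V) (k : ℕ) : Finset (V → ℕ) :=
  (Fintype.piFinset (fun _ : V => Finset.range (k + 1))).filter
    (fun f => (∀ a, f a ≠ 0 ↔ a ∈ A) ∧ ∀ a b, G.Adj a b → f a ≠ 0 → f a ≠ f b)

lemma mem_C {A : Finset V} {k : ℕ} {f : V → ℕ} :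
    f ∈ C G A k ↔ (∀ a, f a ≤ k) ∧ (∀ a, f a ≠ 0 ↔ a ∈ A) ∧
      ∀ a b, G.Adj a b → f a ≠ 0 → f a ≠ f b := by
  simp only [C, Finset.mem_filter, Fintype.mem_piFinset, Finset.mem_range, Nat.lt_succ_iff]

/-- Independent subsets of `A`. -/
def J (A : Finset V) : Finset (Finset V) :=
  A.powerset.filter (fun S => ∀ a ∈ S, ∀ b ∈ S, ¬ G.Adj a b)

lemma mem_J {A S : Finset V} :
    S ∈ J G A ↔ S ⊆ A ∧ ∀ a ∈ S, ∀ b ∈ S, ¬ G.Adj a b := by
  simp [J]

/-- fibre over a given last colour class -/
lemma card_fibre (A S : Finset V) (k : ℕ) (hS : S ∈ J G A) :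
    ((C G A (k + 1)).filter (fun f => A.filter (fun a => f a = k + 1) = S)).card
      = (C G (A \ S) k).card := by
  rw [mem_J] at hS
  obtain ⟨hSA, hSi⟩ := hS
  refine Finset.card_nbij' (fun f a => if a ∈ S then 0 else f a)
    (fun g a => if a ∈ S then k + 1 else g a) ?_ ?_ ?_ ?_
  · intro f hf
    simp only [Finset.coe_filter, Set.mem_ofPred_eq, mem_C] at hf
    obtain ⟨⟨h1, h2, h3⟩, h4⟩ := hf
    have hS' : ∀ a, a ∈ S ↔ a ∈ A ∧ f a = k + 1 := by
      intro a; rw [← h4]; simp
    simp only [Finset.mem_coe, mem_C]
    refine ⟨?_, ?_, ?_⟩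
    · intro a
      by_cases ha : a ∈ S
      · simp [ha]
      · simp only [ha, if_false]
        have := h1 a
        by_cases haA : a ∈ A
        · have : f a ≠ k + 1 := fun h => ha ((hS' a).2 ⟨haA, h⟩)
          omega
        · have : f a = 0 := by
            by_contra h
            exact haA ((h2 a).1 h)
          omega
    · intro a
      by_cases ha : a ∈ S
      · simp [ha]
      · simp [ha, h2 a]
    · intro a b hab
      by_cases ha : a ∈ S
      · simp [ha]
      · by_cases hb : b ∈ S
        · simp [ha, hb]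
        · simpa [ha, hb] using h3 a b hab
  · intro g hg
    simp only [Finset.mem_coe, mem_C] at hg
    obtain ⟨h1, h2, h3⟩ := hg
    simp only [Finset.coe_filter, Set.mem_ofPred_eq, mem_C]
    refine ⟨⟨?_, ?_, ?_⟩, ?_⟩
    · intro a
      by_cases ha : a ∈ S
      · simp [ha]
      · simp only [ha, if_false]
        exact (h1 a).trans (Nat.le_succ k)
    · intro a
      by_cases ha : a ∈ S
      · simp [ha, hSA ha]
      · simp [ha, h2 a]
    · intro a b hab
      by_cases ha : a ∈ S
      · by_cases hb : b ∈ S
        · exact absurd hab (hSi a ha b hb)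
        · simp only [ha, hb, if_true, if_false]
          intro _
          have := h1 b
          omega
      · by_cases hb : b ∈ S
        · simp only [ha, hb, if_true, if_false]
          intro _
          have := h1 a
          omega
        · simpa [ha, hb] using h3 a b hab
    · ext a
      simp only [Finset.mem_filter]
      by_cases ha : a ∈ S
      · simp [ha, hSA ha]
      · simp only [ha, if_false, iff_false, not_and]
        intro _
        have := h1 a
        omega
  · intro f hf
    simp only [Finset.coe_filter, Set.mem_ofPred_eq, mem_C] at hf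
    obtain ⟨⟨h1, h2, h3⟩, h4⟩ := hf
    have hS' : ∀ a, a ∈ S ↔ a ∈ A ∧ f a = k + 1 := by
      intro a; rw [← h4]; simp
    funext a
    by_cases ha : a ∈ S
    · simp [ha, ((hS' a).1 ha).2]
    · simp [ha]
  · intro g hg
    simp only [Finset.mem_coe, mem_C] at hg
    obtain ⟨h1, h2, h3⟩ := hg
    funext a
    by_cases ha : a ∈ S
    · simp only [ha, if_true]
      by_contra h
      have := (h2 a).1 (Ne.symm h)
      simp [ha] at this
    · simp [ha]

lemma class_mem_J (A : Finset V) (k : ℕ) (f : V → ℕ) (hf : f ∈ C G A (k + 1)) :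
    A.filter (fun a => f a = k + 1) ∈ J G A := by
  rw [mem_C] at hf
  obtain ⟨h1, h2, h3⟩ := hf
  rw [mem_J]
  refine ⟨Finset.filter_subset _ _, ?_⟩
  intro a ha b hb hab
  simp only [Finset.mem_filter] at ha hb
  exact h3 a b hab (by rw [ha.2]; omega) (by rw [ha.2, hb.2])

/-- (I1) at natural numbers. -/
lemma card_C_succ (A : Finset V) (k : ℕ) :
    (C G A (k + 1)).card = ∑ S ∈ J G A, (C G (A \ S) k).card := by
  rw [Finset.card_eq_sum_card_fiberwise (f := fun f => A.filter (fun a => f a = k + 1))
    (t := J G A)]
  · exact Finset.sum_congr rfl (fun S hS => card_fibre G A S k hS)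
  · intro f hf
    exact class_mem_J G A k f hf

/-- colourings with `f x = last colour` -/
lemma card_last (A : Finset V) (x : V) (hx : x ∈ A) (k : ℕ) :
    ((C G A (k + 1)).filter (fun f => f x = k + 1)).card
      = ∑ S ∈ (J G A).filter (fun S => x ∈ S), (C G (A \ S) k).card := by
  rw [Finset.card_eq_sum_card_fiberwise (f := fun f => A.filter (fun a => f a = k + 1))
    (t := (J G A).filter (fun S => x ∈ S))]
  · refine Finset.sum_congr rfl (fun S hS => ?_)
    rw [Finset.mem_filter] at hS
    rw [← card_fibre G A S k hS.1, Finset.filter_filter]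
    congr 1
    ext f
    simp only [Finset.mem_filter, and_congr_right_iff, and_iff_right_iff_imp]
    intro _ h
    have := hS.2
    rw [← h] at this
    simp only [Finset.mem_filter] at this
    exact this.2
  · intro f hf
    simp only [Finset.coe_filter, Set.mem_ofPred_eq] at hf ⊢
    refine ⟨class_mem_J G A k f hf.1, ?_⟩
    simp [hx, hf.2]

lemma card_colour (A : Finset V) (x : V) (_hx : x ∈ A) (k c : ℕ) (hc : c ∈ Finset.Icc 1 (k + 1)) :
    ((C G A (k + 1)).filter (fun f => f x = c)).card
      = ((C G A (k + 1)).filter (fun f => f x = k + 1)).card := by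
  rw [Finset.mem_Icc] at hc
  have key : ∀ f ∈ C G A (k + 1), (fun a => Equiv.swap c (k + 1) (f a)) ∈ C G A (k + 1) := by
    intro f hf
    rw [mem_C] at hf ⊢
    obtain ⟨h1, h2, h3⟩ := hf
    refine ⟨?_, ?_, ?_⟩
    · intro a
      have := h1 a
      show Equiv.swap c (k + 1) (f a) ≤ k + 1
      rw [Equiv.swap_apply_def]
      split_ifs <;> omega
    · intro a
      rw [← h2 a]
      show Equiv.swap c (k + 1) (f a) ≠ 0 ↔ _
      rw [Equiv.swap_apply_def]
      split_ifs <;> omega
    · intro a b hab h
      have hfa : f a ≠ 0 := by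
        intro h0
        apply h
        show Equiv.swap c (k + 1) (f a) = 0
        rw [Equiv.swap_apply_def]
        split_ifs <;> omega
      intro h'
      exact h3 a b hab hfa ((Equiv.swap c (k + 1)).injective h')
  refine Finset.card_nbij' (fun f a => Equiv.swap c (k + 1) (f a))
    (fun f a => Equiv.swap c (k + 1) (f a)) ?_ ?_ ?_ ?_
  · intro f hf
    simp only [Finset.coe_filter, Set.mem_ofPred_eq] at hf ⊢
    refine ⟨key f hf.1, ?_⟩
    rw [hf.2, Equiv.swap_apply_left]
  · intro f hf
    simp only [Finset.coe_filter, Set.mem_ofPred_eq] at hf ⊢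
    refine ⟨key f hf.1, ?_⟩
    rw [hf.2, Equiv.swap_apply_right]
  · intro f hf
    funext a
    simp
  · intro f hf
    funext a
    simp

/-- (I2) at natural numbers. -/
lemma card_C_succ' (A : Finset V) (x : V) (hx : x ∈ A) (k : ℕ) :
    (C G A (k + 1)).card
      = (k + 1) * ∑ S ∈ (J G A).filter (fun S => x ∈ S), (C G (A \ S) k).card := by
  rw [Finset.card_eq_sum_card_fiberwise (f := fun f => f x) (t := Finset.Icc 1 (k + 1))]
  · rw [Finset.sum_congr rfl (fun c hc => card_colour G A x hx k c hc)]
    rw [Finset.sum_const, Nat.card_Icc, card_last G A x hx k]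
    simp
  · intro f hf
    have hf' := (mem_C G).1 hf
    simp only [Finset.coe_Icc, Set.mem_Icc]
    refine ⟨?_, hf'.1 x⟩
    have := (hf'.2.1 x).2 hx
    omega

lemma card_C_empty (k : ℕ) : (C G ∅ k).card = 1 := by
  rw [Finset.card_eq_one]
  refine ⟨fun _ => 0, ?_⟩
  ext f
  rw [mem_C, Finset.mem_singleton]
  constructor
  · rintro ⟨-, h2, -⟩
    funext a
    by_contra h
    exact absurd ((h2 a).1 h) (Finset.notMem_empty a)
  · rintro rfl
    simp

lemma card_C_zero (A : Finset V) (hA : A.Nonempty) : (C G A 0).card = 0 := by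
  rw [Finset.card_eq_zero, Finset.eq_empty_iff_forall_notMem]
  intro f hf
  rw [mem_C] at hf
  obtain ⟨x, hx⟩ := hA
  exact (hf.2.1 x).2 hx (Nat.le_zero.1 (hf.1 x))

lemma exists_poly (A : Finset V) : ∃ P : ℝ[X], ∀ k : ℕ, P.eval (k : ℝ) = ((C G A k).card : ℝ) := by
  induction A using Finset.strongInduction with
  | H A ih =>
    rcases A.eq_empty_or_nonempty with rfl | hA
    · refine ⟨1, fun k => ?_⟩
      rw [card_C_empty]; simp
    · obtain ⟨x, hx⟩ := hA
      have hsub : ∀ S ∈ (J G A).filter (fun S => x ∈ S), A \ S ⊂ A := by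
        intro S hS
        rw [Finset.mem_filter, mem_J] at hS
        refine ⟨Finset.sdiff_subset, ?_⟩
        intro h
        have := h hx
        simp [hS.2] at this
      choose! Q hQ using ih
      refine ⟨X * ∑ S ∈ (J G A).filter (fun S => x ∈ S), (Q (A \ S)).comp (X - 1), fun k => ?_⟩
      rcases k with _ | k
      · rw [card_C_zero G A ⟨x, hx⟩]; simp
      · rw [card_C_succ' G A x hx k]
        simp only [eval_mul, eval_X, eval_finsetSum, eval_comp, eval_sub, eval_one]
        push_cast
        congr 1
        refine Finset.sum_congr rfl (fun S hS => ?_)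
        have := hQ (A \ S) (hsub S hS) k
        rw [← this]
        congr 1
        ring

/-- the chromatic polynomial of `G[A]` -/
def P (A : Finset V) : ℝ[X] := (exists_poly G A).choose

lemma P_nat (A : Finset V) (k : ℕ) : (P G A).eval (k : ℝ) = ((C G A k).card : ℝ) :=
  (exists_poly G A).choose_spec k

lemma poly_ext {p q : ℝ[X]} (h : ∀ k : ℕ, p.eval (k : ℝ) = q.eval (k : ℝ)) : p = q := by
  apply Polynomial.eq_of_infinite_eval_eq
  refine (Set.infinite_range_of_injective (Nat.cast_injective (R := ℝ))).mono ?_
  rintro _ ⟨k, rfl⟩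
  exact h k

lemma P_empty : P G ∅ = 1 := by
  apply poly_ext
  intro k
  rw [P_nat, card_C_empty]; simp

/-- (I1) -/
lemma eval_succ (A : Finset V) (z : ℝ) :
    (P G A).eval (z + 1) = ∑ S ∈ J G A, (P G (A \ S)).eval z := by
  have h : (P G A).comp (X + 1) = ∑ S ∈ J G A, P G (A \ S) := by
    apply poly_ext
    intro k
    rw [eval_comp, eval_finsetSum]
    simp only [eval_add, eval_X, eval_one, P_nat]
    have := P_nat G A (k + 1)
    push_cast at this
    rw [this, card_C_succ]
    push_cast
    rfl
  have := congrArg (fun p => Polynomial.eval z p) h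
  simpa [eval_comp, eval_finsetSum] using this

/-- (I2) -/
lemma eval_succ' (A : Finset V) (x : V) (hx : x ∈ A) (z : ℝ) :
    (P G A).eval (z + 1)
      = (z + 1) * ∑ S ∈ (J G A).filter (fun S => x ∈ S), (P G (A \ S)).eval z := by
  have h : (P G A).comp (X + 1)
      = (X + 1) * ∑ S ∈ (J G A).filter (fun S => x ∈ S), P G (A \ S) := by
    apply poly_ext
    intro k
    rw [eval_comp, eval_mul, eval_finsetSum]
    simp only [eval_add, eval_X, eval_one, P_nat]
    have := P_nat G A (k + 1)
    push_cast at this
    rw [this, card_C_succ' G A x hx]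
    push_cast
    rfl
  have := congrArg (fun p => Polynomial.eval z p) h
  simpa [eval_comp, eval_finsetSum] using this

/-- (I3) -/
lemma eval_insert (A : Finset V) (v : V) (hv : v ∉ A) (z : ℝ) :
    (P G (insert v A)).eval (z + 1)
      = (z + 1) * ∑ S ∈ (J G A).filter (fun S => ∀ s ∈ S, ¬ G.Adj v s),
          (P G (A \ S)).eval z := by
  rw [eval_succ' G (insert v A) v (Finset.mem_insert_self v A)]
  congr 1
  refine Finset.sum_nbij' (fun S => S.erase v) (fun S => insert v S) ?_ ?_ ?_ ?_ ?_
  · intro S hS
    simp only [Finset.mem_filter, mem_J] at hS ⊢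
    obtain ⟨⟨h1, h2⟩, h3⟩ := hS
    refine ⟨⟨?_, ?_⟩, ?_⟩
    · intro a ha
      rw [Finset.mem_erase] at ha
      have := h1 ha.2
      rw [Finset.mem_insert] at this
      exact this.resolve_left ha.1
    · intro a ha b hb
      exact h2 a (Finset.mem_of_mem_erase ha) b (Finset.mem_of_mem_erase hb)
    · intro s hs
      exact h2 v h3 s (Finset.mem_of_mem_erase hs)
  · intro S hS
    simp only [Finset.mem_filter, mem_J] at hS ⊢
    obtain ⟨⟨h1, h2⟩, h3⟩ := hS
    refine ⟨⟨Finset.insert_subset_insert v h1, ?_⟩, Finset.mem_insert_self v S⟩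
    intro a ha b hb hab
    rw [Finset.mem_insert] at ha hb
    rcases ha with rfl | ha
    · rcases hb with rfl | hb
      · exact G.loopless.irrefl _ hab
      · exact h3 b hb hab
    · rcases hb with rfl | hb
      · exact h3 a ha hab.symm
      · exact h2 a ha b hb hab
  · intro S hS
    simp only [Finset.mem_filter] at hS
    exact Finset.insert_erase hS.2
  · intro S hS
    simp only [Finset.mem_filter, mem_J] at hS
    exact Finset.erase_insert (fun h => hv (hS.1.1 h))
  · intro S hS
    simp only [Finset.mem_filter, mem_J] at hS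
    congr 2
    ext a
    simp only [Finset.mem_sdiff, Finset.mem_insert, Finset.mem_erase]
    constructor
    · rintro ⟨h | h, h'⟩
      · exact absurd hS.2 (h ▸ h')
      · exact ⟨h, fun h'' => h' h''.2⟩
    · rintro ⟨h, h'⟩
      refine ⟨Or.inr h, fun h'' => h' ⟨?_, h''⟩⟩
      rintro rfl
      exact hv h

lemma sdiff_card_lt {A S : Finset V} {x : V} (hx : x ∈ A) (hxS : x ∈ S) :
    (A \ S).card < A.card := by
  apply Finset.card_lt_card
  refine ⟨Finset.sdiff_subset, fun h => ?_⟩
  have := h hx
  simp [hxS] at this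

/-- positivity of `P_A(z)` for `z > |A| - 1` -/
lemma pos (A : Finset V) : ∀ z : ℝ, (A.card : ℝ) - 1 < z → 0 < (P G A).eval z := by
  induction hn : A.card using Nat.strong_induction_on generalizing A with
  | _ n ih =>
    intro z hz
    rcases A.eq_empty_or_nonempty with rfl | hA
    · rw [P_empty]; simp
    · obtain ⟨x, hx⟩ := hA
      have hcard : 1 ≤ A.card := Finset.card_pos.2 ⟨x, hx⟩
      have hz0 : 0 < z := by
        have : (1 : ℝ) ≤ (n : ℝ) := by rw [← hn]; exact_mod_cast hcard
        linarith
      have h := eval_succ' G A x hx (z - 1)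
      rw [sub_add_cancel] at h
      rw [h]
      apply mul_pos hz0
      apply Finset.sum_pos
      · intro S hS
        rw [Finset.mem_filter] at hS
        have hlt := sdiff_card_lt hx hS.2
        refine ih _ (by omega) (A \ S) rfl _ ?_
        have : ((A \ S).card : ℝ) + 1 ≤ (n : ℝ) := by
          rw [← hn]; exact_mod_cast hlt
        linarith
      · refine ⟨{x}, ?_⟩
        rw [Finset.mem_filter, mem_J]
        refine ⟨⟨by simpa using hx, ?_⟩, by simp⟩
        intro a ha b hb
        rw [Finset.mem_singleton] at ha hb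
        subst ha; subst hb
        exact G.loopless.irrefl _

/-- The monotonicity statement `(M)` for `(A, v)` at `y`. -/
def M (A : Finset V) (v : V) (y : ℝ) : Prop :=
  (P G (insert v A)).eval y * (P G A).eval (y + 1)
    ≤ (P G (insert v A)).eval (y + 1) * (P G A).eval y

/-- chain lemma: `P_{A∖S}(z+1)/P_{A∖S}(z) ≤ P_A(z+1)/P_A(z)`. -/
lemma chain (A : Finset V) (z : ℝ) (hz : (A.card : ℝ) - 1 < z)
    (hM : ∀ B : Finset V, ∀ v, v ∉ B → B.card < A.card → M G B v z)
    (S : Finset V) (hS : S ⊆ A) :
    (P G (A \ S)).eval (z + 1) * (P G A).eval z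
      ≤ (P G A).eval (z + 1) * (P G (A \ S)).eval z := by
  induction S using Finset.induction_on with
  | empty => simp
  | insert u T hu ih =>
    have hT : T ⊆ A := fun a ha => hS (Finset.mem_insert_of_mem ha)
    have huA : u ∈ A := hS (Finset.mem_insert_self u T)
    have ih' := ih hT
    set B := A \ insert u T with hB
    have huB : u ∉ B := by simp [hB]
    have hins : insert u B = A \ T := by
      ext a
      simp only [hB, Finset.mem_insert, Finset.mem_sdiff]
      constructor
      · rintro (rfl | ⟨h1, h2⟩)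
        · exact ⟨huA, hu⟩
        · exact ⟨h1, fun h => h2 (Or.inr h)⟩
      · rintro ⟨h1, h2⟩
        by_cases h : a = u
        · exact Or.inl h
        · exact Or.inr ⟨h1, fun h' => h'.elim h h2⟩
    have hBcard : B.card < A.card := sdiff_card_lt huA (Finset.mem_insert_self u T)
    have hm := hM B u huB hBcard
    unfold M at hm
    rw [hins] at hm
    have hTcard : ((A \ T).card : ℝ) ≤ (A.card : ℝ) := by
      exact_mod_cast Finset.card_le_card Finset.sdiff_subset
    have p1 : 0 < (P G (A \ T)).eval z := pos G _ z (by linarith)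
    have p2 : 0 < (P G A).eval z := pos G _ z hz
    have p3 : 0 < (P G B).eval z := by
      apply pos G
      have : (B.card : ℝ) ≤ (A.card : ℝ) := by exact_mod_cast hBcard.le
      linarith
    -- multiply
    have h1 : (P G B).eval (z + 1) * (P G A).eval z * (P G (A \ T)).eval z
        ≤ (P G A).eval (z + 1) * (P G B).eval z * (P G (A \ T)).eval z := by
      calc (P G B).eval (z + 1) * (P G A).eval z * (P G (A \ T)).eval z
          = ((P G (A \ T)).eval z * (P G B).eval (z + 1)) * (P G A).eval z := by ring
        _ ≤ ((P G (A \ T)).eval (z + 1) * (P G B).eval z) * (P G A).eval z :=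
            mul_le_mul_of_nonneg_right hm p2.le
        _ = ((P G (A \ T)).eval (z + 1) * (P G A).eval z) * (P G B).eval z := by ring
        _ ≤ ((P G A).eval (z + 1) * (P G (A \ T)).eval z) * (P G B).eval z :=
            mul_le_mul_of_nonneg_right ih' p3.le
        _ = (P G A).eval (z + 1) * (P G B).eval z * (P G (A \ T)).eval z := by ring
    exact le_of_mul_le_mul_right h1 p1

/-- Main step. -/
lemma M_step (A : Finset V) (v : V) (hv : v ∉ A) (y : ℝ) (hy : (A.card : ℝ) < y)
    (ih : ∀ B : Finset V, ∀ u, u ∉ B → B.card < A.card → M G B u (y - 1)) :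
    M G A v y := by
  rcases A.eq_empty_or_nonempty with rfl | hA
  · have hy0 : (0 : ℝ) < y := by simpa using hy
    have h1 := eval_insert G ∅ v (by simp) y
    have h2 := eval_insert G ∅ v (by simp) (y - 1)
    have hJ : (J G (∅ : Finset V)).filter (fun S => ∀ s ∈ S, ¬ G.Adj v s) = {∅} := by
      ext S
      simp only [Finset.mem_filter, mem_J, Finset.subset_empty, Finset.mem_singleton]
      constructor
      · rintro ⟨⟨h, -⟩, -⟩; exact h
      · rintro rfl; simp
    rw [hJ] at h1 h2
    simp only [Finset.sum_singleton, Finset.sdiff_self, P_empty, eval_one, mul_one,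
      sub_add_cancel] at h1 h2
    unfold M
    rw [P_empty, h1, h2]
    simp
  · obtain ⟨x0, hx0⟩ := hA
    have hcard : 1 ≤ A.card := Finset.card_pos.2 ⟨x0, hx0⟩
    have hcard' : (1 : ℝ) ≤ (A.card : ℝ) := by exact_mod_cast hcard
    have hy0 : 0 < y := by linarith
    set w : Finset V → ℝ := fun S => (P G (A \ S)).eval (y - 1) with hw
    set w' : Finset V → ℝ := fun S => (P G (A \ S)).eval y with hw'
    set W : ℝ := (P G A).eval y / y with hW
    set W' : ℝ := (P G A).eval (y + 1) / (y + 1) with hW'
    have wpos : ∀ S, 0 < w S := by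
      intro S
      apply pos G
      have : ((A \ S).card : ℝ) ≤ (A.card : ℝ) := by
        exact_mod_cast Finset.card_le_card Finset.sdiff_subset
      linarith
    have Wpos : 0 < W := div_pos (pos G A y (by linarith)) hy0
    -- sums over S ∋ x
    have hsumW : ∀ x ∈ A, ∑ S ∈ (J G A).filter (fun S => x ∈ S), w S = W := by
      intro x hx
      have h := eval_succ' G A x hx (y - 1)
      rw [sub_add_cancel] at h
      rw [hW, h, mul_div_cancel_left₀ _ hy0.ne']
    have hsumW' : ∀ x ∈ A, ∑ S ∈ (J G A).filter (fun S => x ∈ S), w' S = W' := by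
      intro x hx
      have h := eval_succ' G A x hx y
      have hne : y + 1 ≠ 0 := by linarith
      rw [hW', h, mul_div_cancel_left₀ _ hne]
    have htot : ∑ S ∈ J G A, w S = y * W := by
      have h := eval_succ G A (y - 1)
      rw [sub_add_cancel] at h
      rw [hW, ← h]
      field_simp
    -- D
    set D : Finset V → ℝ := fun S => w' S * W - w S * W' with hD
    have hDx : ∀ x ∈ A, ∑ S ∈ (J G A).filter (fun S => x ∈ S), D S = 0 := by
      intro x hx
      simp only [hD]
      rw [Finset.sum_sub_distrib, ← Finset.sum_mul, ← Finset.sum_mul, hsumW x hx, hsumW' x hx]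
      ring
    have hDle : ∀ S ∈ J G A, w ∅ * D S ≤ w S * D ∅ := by
      intro S hS
      have hSA : S ⊆ A := ((mem_J G).1 hS).1
      have hc := chain G A (y - 1) (by linarith) ih S hSA
      rw [sub_add_cancel] at hc
      have hc' : w' S * w ∅ ≤ w' ∅ * w S := by
        simpa [hw, hw'] using hc
      simp only [hD]
      nlinarith [mul_le_mul_of_nonneg_right hc' Wpos.le]
    have hD0 : 0 ≤ D ∅ := by
      have h1 : ∑ S ∈ (J G A).filter (fun S => x0 ∈ S), w ∅ * D S
          ≤ ∑ S ∈ (J G A).filter (fun S => x0 ∈ S), w S * D ∅ :=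
        Finset.sum_le_sum (fun S hS => hDle S (Finset.mem_filter.1 hS).1)
      rw [← Finset.mul_sum, ← Finset.sum_mul, hDx x0 hx0, hsumW x0 hx0, mul_zero] at h1
      exact nonneg_of_mul_nonneg_right h1 Wpos
    -- the weights b
    set nb : Finset V → ℝ := fun S => ((S.filter (fun x => ¬ G.Adj v x)).card : ℝ) with hnb
    have hzero : ∑ S ∈ J G A, D S * nb S = 0 := by
      have h1 : ∀ S ∈ J G A, D S * nb S
          = ∑ x ∈ A.filter (fun x => ¬ G.Adj v x), if x ∈ S then D S else 0 := by
        intro S hS
        have hSA : S ⊆ A := ((mem_J G).1 hS).1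
        rw [← Finset.sum_filter, Finset.sum_const, nsmul_eq_mul, mul_comm]
        congr 2
        simp only [hnb]
        congr 2
        ext a
        simp only [Finset.mem_filter]
        constructor
        · rintro ⟨h1, h2⟩; exact ⟨⟨hSA h1, h2⟩, h1⟩
        · rintro ⟨⟨_, h2⟩, h1⟩; exact ⟨h1, h2⟩
      rw [Finset.sum_congr rfl h1, Finset.sum_comm]
      apply Finset.sum_eq_zero
      intro x hx
      rw [← Finset.sum_filter]
      exact hDx x (Finset.mem_filter.1 hx).1
    have hcardsum : ∑ S ∈ J G A, w S * (S.card : ℝ) = (A.card : ℝ) * W := by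
      have h1 : ∀ S ∈ J G A, w S * (S.card : ℝ) = ∑ x ∈ A, if x ∈ S then w S else 0 := by
        intro S hS
        have hSA : S ⊆ A := ((mem_J G).1 hS).1
        rw [← Finset.sum_filter, Finset.sum_const, nsmul_eq_mul, mul_comm]
        congr 3
        ext a
        simp only [Finset.mem_filter]
        exact ⟨fun h => ⟨hSA h, h⟩, fun h => h.2⟩
      rw [Finset.sum_congr rfl h1, Finset.sum_comm]
      rw [Finset.sum_congr rfl (fun x hx => ?_), Finset.sum_const, nsmul_eq_mul]
      rw [← Finset.sum_filter]
      exact hsumW x hx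
    set ok : Finset V → Prop := fun S => ∀ s ∈ S, ¬ G.Adj v s with hok
    have hkey : ∀ S ∈ J G A,
        - (w S * D ∅ * ((S.card : ℝ) - 1)) ≤ w ∅ * (D S * ((if ok S then 1 else 0) - nb S)) := by
      intro S hS
      rcases S.eq_empty_or_nonempty with rfl | hSne
      · have : ok ∅ := by simp [hok]
        simp [hnb, this]
      · have hScard : (1 : ℝ) ≤ (S.card : ℝ) := by
          exact_mod_cast Finset.card_pos.2 hSne
        -- b ≤ 0 and b ≥ -(|S|-1)
        have hb1 : (if ok S then (1 : ℝ) else 0) - nb S ≤ 0 := by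
          by_cases h : ok S
          · have : nb S = (S.card : ℝ) := by
              simp only [hnb]
              congr 2
              exact Finset.filter_true_of_mem h
            rw [if_pos h, this]; linarith
          · rw [if_neg h]
            have : 0 ≤ nb S := by simp only [hnb]; positivity
            linarith
        have hb2 : -((S.card : ℝ) - 1) ≤ (if ok S then (1 : ℝ) else 0) - nb S := by
          by_cases h : ok S
          · have : nb S = (S.card : ℝ) := by
              simp only [hnb]
              congr 2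
              exact Finset.filter_true_of_mem h
            rw [if_pos h, this]; linarith
          · rw [if_neg h]
            have h' : ∃ s ∈ S, G.Adj v s := by
              simp only [hok] at h
              push Not at h
              exact h
            obtain ⟨s, hs, hadj⟩ := h'
            have hlt : (S.filter (fun x => ¬ G.Adj v x)).card < S.card := by
              apply Finset.card_lt_card
              refine ⟨Finset.filter_subset _ _, fun hh => ?_⟩
              have := hh hs
              rw [Finset.mem_filter] at this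
              exact this.2 hadj
            have : nb S + 1 ≤ (S.card : ℝ) := by
              simp only [hnb]
              exact_mod_cast hlt
            linarith
        have h1 := hDle S hS
        have h2 : w S * D ∅ * ((if ok S then (1 : ℝ) else 0) - nb S)
            ≤ w ∅ * D S * ((if ok S then (1 : ℝ) else 0) - nb S) :=
          mul_le_mul_of_nonpos_right h1 hb1
        have h3 : w S * D ∅ * (-((S.card : ℝ) - 1))
            ≤ w S * D ∅ * ((if ok S then (1 : ℝ) else 0) - nb S) :=
          mul_le_mul_of_nonneg_left hb2 (mul_nonneg (wpos S).le hD0)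
        calc - (w S * D ∅ * ((S.card : ℝ) - 1)) = w S * D ∅ * (-((S.card : ℝ) - 1)) := by ring
          _ ≤ w S * D ∅ * ((if ok S then (1 : ℝ) else 0) - nb S) := h3
          _ ≤ w ∅ * D S * ((if ok S then (1 : ℝ) else 0) - nb S) := h2
          _ = w ∅ * (D S * ((if ok S then 1 else 0) - nb S)) := by ring
    have hsum := Finset.sum_le_sum hkey
    have hL : ∑ S ∈ J G A, - (w S * D ∅ * ((S.card : ℝ) - 1)) = D ∅ * ((y - A.card) * W) := by
      have : ∀ S ∈ J G A, - (w S * D ∅ * ((S.card : ℝ) - 1))
          = D ∅ * (w S) - D ∅ * (w S * (S.card : ℝ)) := by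
        intro S _; ring
      rw [Finset.sum_congr rfl this, Finset.sum_sub_distrib, ← Finset.mul_sum, ← Finset.mul_sum,
        htot, hcardsum]
      ring
    have hR : ∑ S ∈ J G A, w ∅ * (D S * ((if ok S then (1 : ℝ) else 0) - nb S))
        = w ∅ * ∑ S ∈ (J G A).filter ok, D S := by
      rw [← Finset.mul_sum]
      congr 1
      have : ∀ S ∈ J G A, D S * ((if ok S then (1 : ℝ) else 0) - nb S)
          = (if ok S then D S else 0) - D S * nb S := by
        intro S _
        by_cases h : ok S
        · simp [h]; ring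
        · simp [h]
      rw [Finset.sum_congr rfl this, Finset.sum_sub_distrib, hzero, sub_zero, Finset.sum_filter]
    rw [hL, hR] at hsum
    have hfin : 0 ≤ ∑ S ∈ (J G A).filter ok, D S := by
      have : 0 ≤ D ∅ * ((y - A.card) * W) :=
        mul_nonneg hD0 (mul_nonneg (by linarith) Wpos.le)
      exact nonneg_of_mul_nonneg_right (this.trans hsum) (wpos ∅)
    -- conclude
    simp only [hD] at hfin
    rw [Finset.sum_sub_distrib, ← Finset.sum_mul, ← Finset.sum_mul] at hfin
    have e1 := eval_insert G A v hv (y - 1)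
    rw [sub_add_cancel] at e1
    have e2 := eval_insert G A v hv y
    have e3 : (P G A).eval y = y * W := by rw [hW]; field_simp
    have e4 : (P G A).eval (y + 1) = (y + 1) * W' := by
      rw [hW']
      have : y + 1 ≠ 0 := by linarith
      field_simp
    unfold M
    rw [e1, e2, e3, e4]
    have hyy : 0 ≤ y * (y + 1) := by positivity
    have := mul_le_mul_of_nonneg_left hfin hyy
    simp only [hw, hw', hok] at this
    nlinarith [this]

/-- `(M)` holds for all `y > |A|`. -/
theorem M_all (A : Finset V) : ∀ (v : V), v ∉ A → ∀ y : ℝ, (A.card : ℝ) < y → M G A v y := by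
  induction hn : A.card using Nat.strong_induction_on generalizing A with
  | _ n ih =>
    intro v hv y hy
    apply M_step G A v hv y (by rw [hn]; exact hy)
    intro B u hu hB
    refine ih B.card (by omega) B rfl u hu (y - 1) ?_
    have : (B.card : ℝ) + 1 ≤ (n : ℝ) := by
      rw [← hn]; exact_mod_cast hB
    linarith

/-- Log-concavity for `x > |A|`. -/
theorem logconcave (A : Finset V) (x : ℝ) (hx : (A.card : ℝ) < x) :
    (P G A).eval (x + 1) * (P G A).eval (x - 1) ≤ (P G A).eval x ^ 2 := by
  have h1 := eval_succ G A (x - 1)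
  rw [sub_add_cancel] at h1
  have h2 := eval_succ G A x
  have hc : ∀ S ∈ J G A, (P G (A \ S)).eval x * (P G A).eval (x - 1)
      ≤ (P G A).eval x * (P G (A \ S)).eval (x - 1) := by
    intro S hS
    have := chain G A (x - 1) (by linarith) (fun B v hv hB => ?_) S ((mem_J G).1 hS).1
    · rwa [sub_add_cancel] at this
    · refine M_all G B v hv (x - 1) ?_
      have : (B.card : ℝ) + 1 ≤ (A.card : ℝ) := by exact_mod_cast hB
      linarith
  have hs := Finset.sum_le_sum hc
  rw [← Finset.sum_mul, ← Finset.mul_sum, ← h1, ← h2] at hs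
  rw [sq]
  exact hs

/-- `P univ` agrees with any polynomial counting colourings. -/
lemma card_C_univ (k : ℕ) : (C G Finset.univ k).card = Nat.card (G.Coloring (Fin k)) := by
  rw [← Fintype.card_coe, ← Nat.card_eq_fintype_card]
  refine Nat.card_congr ?_
  refine
    { toFun := fun f => SimpleGraph.Coloring.mk (fun a => ⟨f.1 a - 1, ?_⟩) ?_
      invFun := fun c => ⟨fun a => (c a).val + 1, ?_⟩
      left_inv := ?_
      right_inv := ?_ }
  · have hf := (mem_C G).1 f.2
    have h1 := hf.1 a
    have h2 : f.1 a ≠ 0 := (hf.2.1 a).2 (Finset.mem_univ a)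
    omega
  · intro a b hab h
    have hf := (mem_C G).1 f.2
    have h1 : f.1 a ≠ 0 := (hf.2.1 a).2 (Finset.mem_univ a)
    have h2 : f.1 b ≠ 0 := (hf.2.1 b).2 (Finset.mem_univ b)
    have h3 := hf.2.2 a b hab h1
    have h4 : f.1 a - 1 = f.1 b - 1 := congrArg Fin.val h
    omega
  · rw [mem_C]
    refine ⟨fun a => (c a).2, fun a => by simp, ?_⟩
    intro a b hab _ h
    have : c a = c b := Fin.ext (by simpa using h)
    exact c.valid hab this
  · intro f
    apply Subtype.ext
    funext a
    have hf := (mem_C G).1 f.2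
    have h2 : f.1 a ≠ 0 := (hf.2.1 a).2 (Finset.mem_univ a)
    show f.1 a - 1 + 1 = f.1 a
    omega
  · intro c
    apply RelHom.ext
    intro a
    apply Fin.ext
    show (c a).val + 1 - 1 = (c a).val
    simp

end

end Pool.Agent.H331R2.ChromLC
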